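import Mathlib

set_option autoImplicit false

namespace Pool.Agent.Results.MP_cb5b52_nt.DensityTendsToZero

open Filter Topology

/-- `p a k n` is the number of `k`-tuples `(c_0, …, c_{k-1})` of natural numbers with
`c_0 a_0 + ⋯ + c_{k-1} a_{k-1} = n` (the problem's `p_A(n,k)`, with the sequence indexed from
`0`). -/
noncomputable def p (a : ℕ → ℕ) (k n : ℕ) : ℕ :=
  Set.ncard {c : Fin k → ℕ | ∑ i : Fin k, c i * a (i : ℕ) = n}

/-- The limit of `#{n ≤ N : p_A(n,k) odd} / N` exists and equals `δ`. -/
def HasOddDensity (a : ℕ → ℕ) (k : ℕ) (δ : ℝ) : Prop :=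
  Tendsto (fun N : ℕ => (((Finset.range (N + 1)).filter (fun n => Odd (p a k n))).card : ℝ) / (N : ℝ))
    atTop (𝓝 δ)

section
variable (a : ℕ → ℕ) (ha : ∀ i, 0 < a i)

/-- the set of representations -/
def S (k n : ℕ) : Set (Fin k → ℕ) := {c | ∑ i : Fin k, c i * a (i : ℕ) = n}

include ha in
theorem S_finite (k n : ℕ) : (S a k n).Finite := by
  refine (Set.finite_Icc (0 : Fin k → ℕ) (fun _ => n)).subset ?_
  intro c hc
  refine ⟨fun i => Nat.zero_le _, fun i => ?_⟩
  have h1 : c i * a (i : ℕ) ≤ ∑ j : Fin k, c j * a (j : ℕ) :=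
    Finset.single_le_sum (f := fun j : Fin k => c j * a (j : ℕ)) (fun j _ => Nat.zero_le _)
      (Finset.mem_univ i)
  have h2 : ∑ j : Fin k, c j * a (j : ℕ) = n := hc
  have h3 : c i * 1 ≤ c i * a (i : ℕ) := Nat.mul_le_mul_left _ (ha i)
  show c i ≤ n
  omega

theorem p_eq (k n : ℕ) : p a k n = (S a k n).ncard := rfl

/-- first embedding: last coordinate zero -/
theorem snoc_zero_inj (k : ℕ) :
    Function.Injective (fun c : Fin k → ℕ => (Fin.snoc c 0 : Fin (k + 1) → ℕ)) := by
  intro c c' h
  have := congrArg Fin.init h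
  simpa [Fin.init_snoc] using this

/-- second embedding: increase the last coordinate -/
theorem incr_inj (k : ℕ) :
    Function.Injective (fun c : Fin (k + 1) → ℕ => (c + Pi.single (Fin.last k) 1)) :=
  add_left_injective _

theorem p_lt (k n : ℕ) (hn : n < a k) : p a (k + 1) n = p a k n := by
  rw [p_eq, p_eq, ← Set.ncard_image_of_injective _ (snoc_zero_inj k)]
  congr 1
  ext c
  constructor
  · intro hc
    have hc' : ∑ i : Fin (k + 1), c i * a (i : ℕ) = n := hc
    rw [Fin.sum_univ_castSucc] at hc'
    simp only [Fin.val_castSucc, Fin.val_last] at hc'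
    have h0 : c (Fin.last k) = 0 := by
      by_contra hne
      have : 1 * a k ≤ c (Fin.last k) * a k := Nat.mul_le_mul_right _ (Nat.pos_of_ne_zero hne)
      omega
    refine ⟨Fin.init c, ?_, ?_⟩
    · show ∑ i : Fin k, c (Fin.castSucc i) * a (i : ℕ) = n
      rw [h0] at hc'
      simpa using hc'
    · show (Fin.snoc (Fin.init c) 0 : Fin (k + 1) → ℕ) = c
      rw [← h0]
      exact Fin.snoc_init_self c
  · rintro ⟨c', hc', rfl⟩
    show ∑ i : Fin (k + 1), (Fin.snoc c' 0 : Fin (k + 1) → ℕ) i * a (i : ℕ) = n
    rw [Fin.sum_univ_castSucc]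
    simp only [Fin.snoc_castSucc, Fin.snoc_last, Fin.val_castSucc, zero_mul, add_zero]
    exact hc'

include ha in
theorem p_ge (k n : ℕ) : p a (k + 1) (n + a k) = p a k (n + a k) + p a (k + 1) n := by
  have hunion : S a (k + 1) (n + a k) =
      ((fun c : Fin k → ℕ => (Fin.snoc c 0 : Fin (k + 1) → ℕ)) '' (S a k (n + a k))) ∪
      ((fun c : Fin (k + 1) → ℕ => (c + Pi.single (Fin.last k) 1)) '' (S a (k + 1) n)) := by
    ext c
    constructor
    · intro hc
      have hc' : ∑ i : Fin (k + 1), c i * a (i : ℕ) = n + a k := hc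
      rw [Fin.sum_univ_castSucc] at hc'
      simp only [Fin.val_castSucc, Fin.val_last] at hc'
      by_cases h0 : c (Fin.last k) = 0
      · left
        refine ⟨Fin.init c, ?_, ?_⟩
        · show ∑ i : Fin k, c (Fin.castSucc i) * a (i : ℕ) = n + a k
          rw [h0] at hc'
          simpa using hc'
        · show (Fin.snoc (Fin.init c) 0 : Fin (k + 1) → ℕ) = c
          rw [← h0]
          exact Fin.snoc_init_self c
      · right
        refine ⟨c - Pi.single (Fin.last k) 1, ?_, ?_⟩
        · show ∑ i : Fin (k + 1), (c - Pi.single (Fin.last k) 1 : Fin (k + 1) → ℕ) i * a (i : ℕ) = n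
          rw [Fin.sum_univ_castSucc]
          simp only [Pi.sub_apply, Pi.single_eq_same, Fin.val_castSucc, Fin.val_last]
          have h1 : ∀ i : Fin k, (Pi.single (Fin.last k) 1 : Fin (k + 1) → ℕ) (Fin.castSucc i) = 0 := by
            intro i
            rw [Pi.single_eq_of_ne]
            exact (Fin.castSucc_lt_last i).ne
          simp only [h1, Nat.sub_zero]
          have h2 : (c (Fin.last k) - 1) * a k + a k = c (Fin.last k) * a k := by
            obtain ⟨t, ht⟩ : ∃ t, c (Fin.last k) = t + 1 := ⟨c (Fin.last k) - 1, by omega⟩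
            rw [ht]; simp; ring
          omega
        · funext i
          show (c i - (Pi.single (Fin.last k) 1 : Fin (k + 1) → ℕ) i) +
            (Pi.single (Fin.last k) 1 : Fin (k + 1) → ℕ) i = c i
          by_cases hi : i = Fin.last k
          · subst hi
            rw [Pi.single_eq_same]
            omega
          · rw [Pi.single_eq_of_ne hi]
            simp
    · rintro (⟨c', hc', rfl⟩ | ⟨c', hc', rfl⟩)
      · show ∑ i : Fin (k + 1), (Fin.snoc c' 0 : Fin (k + 1) → ℕ) i * a (i : ℕ) = n + a k
        rw [Fin.sum_univ_castSucc]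
        simp only [Fin.snoc_castSucc, Fin.snoc_last, Fin.val_castSucc, zero_mul, add_zero]
        exact hc'
      · show ∑ i : Fin (k + 1), (c' + Pi.single (Fin.last k) 1 : Fin (k + 1) → ℕ) i * a (i : ℕ) =
          n + a k
        have h1 : ∑ i : Fin (k + 1), c' i * a (i : ℕ) = n := hc'
        simp only [Pi.add_apply, add_mul]
        rw [Finset.sum_add_distrib, h1]
        congr 1
        rw [Fin.sum_univ_castSucc]
        have h2 : ∀ i : Fin k, (Pi.single (Fin.last k) 1 : Fin (k + 1) → ℕ) (Fin.castSucc i) = 0 := by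
          intro i
          rw [Pi.single_eq_of_ne]
          exact (Fin.castSucc_lt_last i).ne
        simp
  have hdisj : Disjoint
      ((fun c : Fin k → ℕ => (Fin.snoc c 0 : Fin (k + 1) → ℕ)) '' (S a k (n + a k)))
      ((fun c : Fin (k + 1) → ℕ => (c + Pi.single (Fin.last k) 1)) '' (S a (k + 1) n)) := by
    rw [Set.disjoint_left]
    rintro _ ⟨c, _, rfl⟩ ⟨c', _, h⟩
    have h1 := congrFun h (Fin.last k)
    simp at h1
  rw [p_eq, p_eq, p_eq, hunion, Set.ncard_union_eq hdisj
    ((S_finite a ha _ _).image _) ((S_finite a ha _ _).image _),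
    Set.ncard_image_of_injective _ (snoc_zero_inj k), Set.ncard_image_of_injective _ (incr_inj k)]

include ha in
/-- if `a k` is a period modulo `2` of `p a k` then `p a (k+1) (q a_k + r) ≡ (q+1) p a k r`. -/
theorem p_succ_formula (k : ℕ) (hper : ∀ n, p a k (n + a k) ≡ p a k n [MOD 2]) (q r : ℕ)
    (hr : r < a k) : p a (k + 1) (q * a k + r) ≡ (q + 1) * p a k r [MOD 2] := by
  have hper' : ∀ q n, p a k (q * a k + n) ≡ p a k n [MOD 2] := by
    intro q
    induction q with
    | zero => intro n; rw [zero_mul, zero_add]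
    | succ q ih =>
      intro n
      have h1 : (q + 1) * a k + n = (q * a k + n) + a k := by ring
      rw [h1]
      exact (hper _).trans (ih n)
  induction q with
  | zero =>
    rw [zero_mul, zero_add, zero_add, one_mul, p_lt a k r hr]
  | succ q ih =>
    have h1 : (q + 1) * a k + r = (q * a k + r) + a k := by ring
    rw [h1, p_ge a ha k]
    have h2 : p a k (q * a k + r + a k) ≡ p a k r [MOD 2] := (hper _).trans (hper' q r)
    have h3 := h2.add ih
    have h4 : p a k r + (q + 1) * p a k r = (q + 1 + 1) * p a k r := by ring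
    rw [h4] at h3
    exact h3

end

/-- counting function of a periodic predicate -/
theorem count_periodic (P : ℕ → Prop) [DecidablePred P] (L : ℕ) (hper : ∀ n, P (n + L) ↔ P n) (q r : ℕ) :
    ((Finset.range (q * L + r)).filter P).card =
      q * ((Finset.range L).filter P).card + ((Finset.range r).filter P).card := by
  have hper' : ∀ q n, P (q * L + n) ↔ P n := by
    intro q
    induction q with
    | zero => intro n; simp
    | succ q ih =>
      intro n
      have h1 : (q + 1) * L + n = (q * L + n) + L := by ring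
      rw [h1, hper, ih]
  have hgen : ∀ q r, ((Finset.range (q * L + r)).filter P).card =
      ((Finset.range (q * L)).filter P).card + ((Finset.range r).filter P).card := by
    intro q r
    induction r with
    | zero => simp
    | succ r ih =>
      have h1 : q * L + (r + 1) = (q * L + r) + 1 := by ring
      rw [h1, Finset.range_add_one, Finset.range_add_one, Finset.filter_insert,
        Finset.filter_insert]
      by_cases hP : P r
      · rw [if_pos ((hper' q r).mpr hP), if_pos hP, Finset.card_insert_of_notMem (by simp),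
          Finset.card_insert_of_notMem (by simp), ih]
        ring
      · rw [if_neg (fun h => hP ((hper' q r).mp h)), if_neg hP, ih]
  rw [hgen]
  congr 1
  induction q with
  | zero => simp
  | succ q ih =>
    have h1 : (q + 1) * L = q * L + L := by ring
    rw [h1, hgen, ih]
    ring

/-- the density of a periodic predicate -/
theorem density_periodic (P : ℕ → Prop) [DecidablePred P] (L : ℕ) (hL : 0 < L) (hper : ∀ n, P (n + L) ↔ P n) :
    Tendsto (fun N : ℕ => (((Finset.range (N + 1)).filter P).card : ℝ) / (N : ℝ)) atTop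
      (𝓝 ((((Finset.range L).filter P).card : ℝ) / (L : ℝ))) := by
  set c := ((Finset.range L).filter P).card with hc
  have hcL : c ≤ L := (Finset.card_filter_le _ _).trans (by simp)
  have hL0 : (0 : ℝ) < L := by exact_mod_cast hL
  have hbound : ∀ N : ℕ, 1 ≤ N →
      |(((Finset.range (N + 1)).filter P).card : ℝ) / (N : ℝ) - (c : ℝ) / L| ≤ (2 * L : ℝ) / N := by
    intro N hN
    have hN0 : (0 : ℝ) < N := by exact_mod_cast hN
    have h1 := count_periodic P L hper ((N + 1) / L) ((N + 1) % L)
    have h2 : (N + 1) / L * L + (N + 1) % L = N + 1 := by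
      rw [mul_comm]; exact Nat.div_add_mod _ _
    rw [h2, ← hc] at h1
    have h3 : ((Finset.range ((N + 1) % L)).filter P).card ≤ (N + 1) % L :=
      (Finset.card_filter_le _ _).trans (by simp)
    have h4 : (N + 1) % L < L := Nat.mod_lt _ hL
    set s := ((Finset.range ((N + 1) % L)).filter P).card with hs
    set q := (N + 1) / L with hq
    set r := (N + 1) % L with hr
    have h1' : (((Finset.range (N + 1)).filter P).card : ℝ) = q * c + s := by
      rw [h1]; push_cast; ring
    have h2' : (q : ℝ) * L + r = N + 1 := by exact_mod_cast h2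
    have h3' : (s : ℝ) ≤ r := by exact_mod_cast h3
    have h4' : (r : ℝ) + 1 ≤ L := by exact_mod_cast h4
    have hcL' : (c : ℝ) ≤ L := by exact_mod_cast hcL
    have hc0 : (0 : ℝ) ≤ c := Nat.cast_nonneg _
    have hs0 : (0 : ℝ) ≤ s := Nat.cast_nonneg _
    have hr0 : (0 : ℝ) ≤ r := Nat.cast_nonneg _
    rw [h1', div_sub_div _ _ hN0.ne' hL0.ne', abs_div, abs_of_pos (mul_pos hN0 hL0),
      div_le_div_iff₀ (mul_pos hN0 hL0) hN0]
    have h5 : ((q : ℝ) * c + s) * L - N * c = c * (1 - r) + s * L := by
      have : (q : ℝ) * L = N + 1 - r := by linarith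
      linear_combination (c : ℝ) * this
    rw [h5]
    have h6 : |(c : ℝ) * (1 - r) + s * L| ≤ 2 * L * L := by
      rw [abs_le]
      constructor
      · nlinarith [mul_nonneg hc0 hr0, mul_nonneg hs0 hL0.le, mul_nonneg hc0 hL0.le]
      · nlinarith [mul_nonneg hc0 hr0, mul_nonneg hs0 hL0.le, mul_nonneg hc0 hL0.le]
    calc |(c : ℝ) * (1 - r) + s * L| * N ≤ (2 * L * L) * N :=
          mul_le_mul_of_nonneg_right h6 hN0.le
      _ = 2 * L * (N * L) := by ring
  rw [tendsto_iff_norm_sub_tendsto_zero]
  refine squeeze_zero' (Eventually.of_forall fun _ => norm_nonneg _)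
    ((eventually_ge_atTop 1).mono fun N hN => ?_)
    (tendsto_const_div_atTop_nhds_zero_nat (2 * L : ℝ))
  exact hbound N hN

/-- the explicit sequence `1, 2, 8, 48, …` -/
def A (k : ℕ) : ℕ := 2 ^ k * k.factorial

theorem A_pos (k : ℕ) : 0 < A k := by unfold A; positivity

theorem A_succ (k : ℕ) : A (k + 1) = 2 * A k * (k + 1) := by
  unfold A
  rw [Nat.factorial_succ, pow_succ]
  ring

theorem p_one (n : ℕ) : p A 1 n = 1 := by
  rw [p_eq, Set.ncard_eq_one]
  refine ⟨fun _ => n, ?_⟩
  ext c
  constructor
  · intro hc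
    have h : ∑ i : Fin 1, c i * A (i : ℕ) = n := hc
    have h0 : A 0 = 1 := by decide
    have h1 : c 0 * A 0 = n := by simpa using h
    rw [h0, mul_one] at h1
    show c = fun _ => n
    funext i
    rw [Subsingleton.elim i 0]
    exact h1
  · rintro rfl
    show ∑ i : Fin 1, n * A (i : ℕ) = n
    have h0 : A 0 = 1 := by decide
    simp [h0]

/-- `2 A_k` is a period of `p A (k+1)` modulo 2. -/
theorem period (k : ℕ) : ∀ n, p A (k + 1) (n + 2 * A k) ≡ p A (k + 1) n [MOD 2] := by
  induction k with
  | zero =>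
    intro n
    rw [zero_add, p_one, p_one]
  | succ k ih =>
    have hper : ∀ n, p A (k + 1) (n + A (k + 1)) ≡ p A (k + 1) n [MOD 2] := by
      have hq : ∀ q n, p A (k + 1) (n + (2 * A k) * q) ≡ p A (k + 1) n [MOD 2] := by
        intro q
        induction q with
        | zero => intro n; rw [mul_zero, add_zero]
        | succ q ihq =>
          intro n
          have h1 : n + (2 * A k) * (q + 1) = (n + (2 * A k) * q) + 2 * A k := by ring
          rw [h1]
          exact (ih _).trans (ihq n)
      intro n
      rw [A_succ]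
      exact hq (k + 1) n
    intro n
    have hA : 0 < A (k + 1) := A_pos _
    have h1 := p_succ_formula A A_pos (k + 1) hper (n / A (k + 1)) (n % A (k + 1))
      (Nat.mod_lt _ hA)
    have h2 := p_succ_formula A A_pos (k + 1) hper (n / A (k + 1) + 2) (n % A (k + 1))
      (Nat.mod_lt _ hA)
    have h3 : n / A (k + 1) * A (k + 1) + n % A (k + 1) = n := by
      rw [mul_comm]; exact Nat.div_add_mod _ _
    have h4 : (n / A (k + 1) + 2) * A (k + 1) + n % A (k + 1) = n + 2 * A (k + 1) := by
      rw [add_mul]; omega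
    rw [h3] at h1
    rw [h4] at h2
    have h5 : (n / A (k + 1) + 2 + 1) * p A (k + 1) (n % A (k + 1)) ≡
        (n / A (k + 1) + 1) * p A (k + 1) (n % A (k + 1)) [MOD 2] := by
      have : (n / A (k + 1) + 2 + 1) * p A (k + 1) (n % A (k + 1)) =
        (n / A (k + 1) + 1) * p A (k + 1) (n % A (k + 1)) + 2 * p A (k + 1) (n % A (k + 1)) := by
        ring
      rw [this]
      unfold Nat.ModEq
      omega
    exact h2.trans (h5.trans h1.symm)

theorem period' (k : ℕ) : ∀ n, p A (k + 1) (n + A (k + 1)) ≡ p A (k + 1) n [MOD 2] := by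
  have hq : ∀ q n, p A (k + 1) (n + (2 * A k) * q) ≡ p A (k + 1) n [MOD 2] := by
    intro q
    induction q with
    | zero => intro n; rw [mul_zero, add_zero]
    | succ q ihq =>
      intro n
      have h1 : n + (2 * A k) * (q + 1) = (n + (2 * A k) * q) + 2 * A k := by ring
      rw [h1]
      exact (period k _).trans (ihq n)
  intro n
  rw [A_succ]
  exact hq (k + 1) n

theorem odd_iff_of_modEq {x y : ℕ} (h : x ≡ y [MOD 2]) : Odd x ↔ Odd y := by
  rw [Nat.odd_iff, Nat.odd_iff]
  unfold Nat.ModEq at h
  rw [h]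

/-- the number of odd values of `p A (k+1)` in a period -/
theorem count_succ (k : ℕ) :
    (((Finset.range (2 * A (k + 1))).filter (fun n => Odd (p A (k + 2) n))).card : ℝ) /
      ((2 * A (k + 1) : ℕ) : ℝ) =
    (((Finset.range (2 * A k)).filter (fun n => Odd (p A (k + 1) n))).card : ℝ) /
      ((2 * A k : ℕ) : ℝ) / 2 := by
  have hA : 0 < A (k + 1) := A_pos _
  have hAk : 0 < A k := A_pos _
  -- first half: q = 0, second half: q = 1
  have h1 : ((Finset.range (2 * A (k + 1))).filter (fun n => Odd (p A (k + 2) n))) =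
      ((Finset.range (A (k + 1))).filter (fun n => Odd (p A (k + 1) n))) := by
    ext n
    simp only [Finset.mem_filter, Finset.mem_range]
    constructor
    · rintro ⟨hn, hodd⟩
      by_cases hlt : n < A (k + 1)
      · have h2 := p_succ_formula A A_pos (k + 1) (period' k) 0 n hlt
        rw [zero_mul, zero_add, zero_add, one_mul] at h2
        exact ⟨hlt, (odd_iff_of_modEq h2).mp hodd⟩
      · exfalso
        have h2 := p_succ_formula A A_pos (k + 1) (period' k) 1 (n - A (k + 1)) (by omega)
        have h3 : 1 * A (k + 1) + (n - A (k + 1)) = n := by omega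
        rw [h3] at h2
        have h4 := (odd_iff_of_modEq h2).mp hodd
        have h5 : Even ((1 + 1) * p A (k + 1) (n - A (k + 1))) := by
          rw [show (1 + 1) = 2 by norm_num]
          exact even_two_mul _
        exact (Nat.not_even_iff_odd.mpr h4) h5
    · rintro ⟨hn, hodd⟩
      have h2 := p_succ_formula A A_pos (k + 1) (period' k) 0 n hn
      rw [zero_mul, zero_add, zero_add, one_mul] at h2
      exact ⟨by omega, (odd_iff_of_modEq h2).mpr hodd⟩
  have h2 := count_periodic (fun n => Odd (p A (k + 1) n)) (2 * A k)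
    (fun n => odd_iff_of_modEq (period k n)) (k + 1) 0
  have h3 : (k + 1) * (2 * A k) + 0 = A (k + 1) := by rw [A_succ]; ring
  rw [h3] at h2
  simp only [Finset.range_zero, Finset.filter_empty, Finset.card_empty, add_zero] at h2
  rw [h1, h2, A_succ]
  push_cast
  have hk : ((k : ℝ) + 1) ≠ 0 := by positivity
  have hAk' : (A k : ℝ) ≠ 0 := by exact_mod_cast hAk.ne'
  field_simp

theorem count_eq (k : ℕ) :
    (((Finset.range (2 * A k)).filter (fun n => Odd (p A (k + 1) n))).card : ℝ) /
      ((2 * A k : ℕ) : ℝ) = (1 / 2) ^ k := by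
  induction k with
  | zero =>
    have h : ∀ n, Odd (p A (0 + 1) n) := by
      intro n
      rw [zero_add, p_one]
      exact odd_one
    rw [Finset.filter_true_of_mem (fun n _ => h n), Finset.card_range, pow_zero]
    exact div_self (by have := A_pos 0; positivity)
  | succ k ih =>
    rw [count_succ, ih, pow_succ]
    ring

theorem density (k : ℕ) : HasOddDensity A (k + 1) ((1 / 2) ^ k) := by
  unfold HasOddDensity
  rw [← count_eq k]
  exact density_periodic (fun n => Odd (p A (k + 1) n)) (2 * A k) (by have := A_pos k; omega)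
    (fun n => odd_iff_of_modEq (period k n))

/-- There is a sequence `a` of positive integers with greatest common divisor `1` and infinitely
many prime divisors whose odd densities `δ_k` (`k ≥ 1`) exist and tend to `0`. -/
theorem result : ∃ a : ℕ → ℕ, (∀ i, 0 < a i) ∧ (∀ g : ℕ, (∀ i, g ∣ a i) → g = 1) ∧
    {q : ℕ | q.Prime ∧ ∃ i, q ∣ a i}.Infinite ∧
    ∃ δ : ℕ → ℝ, (∀ k, 1 ≤ k → HasOddDensity a k (δ k)) ∧ Tendsto δ atTop (𝓝 0) := by
  refine ⟨A, A_pos, ?_, ?_, fun k => (1 / 2) ^ (k - 1), ?_, ?_⟩
  · intro g hg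
    have := hg 0
    have h0 : A 0 = 1 := by decide
    rw [h0] at this
    exact Nat.dvd_one.mp this
  · refine Nat.infinite_setOfPred_prime.mono ?_
    intro q hq
    refine ⟨hq, q, ?_⟩
    unfold A
    exact (Nat.dvd_factorial hq.pos le_rfl).mul_left _
  · intro k hk
    obtain ⟨j, rfl⟩ : ∃ j, k = j + 1 := ⟨k - 1, by omega⟩
    exact density j
  · have h := tendsto_pow_atTop_nhds_zero_of_lt_one (r := (1 / 2 : ℝ)) (by norm_num) (by norm_num)
    exact h.comp (tendsto_sub_atTop_nat 1)

end Pool.Agent.Results.MP_cb5b52_nt.DensityTendsToZero
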